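import Mathlib
import Pool.Agent.Lib.MP_c7ba3e_co.Defs
import Pool.Agent.Lib.MP_c7ba3e_co.Holds
import Pool.Agent.Lib.MP_c7ba3e_co.AllBig

namespace Pool.Agent.Results.MP_c7ba3e_co.Classification

open Pool.Agent.Lib.MP_c7ba3e_co

theorem result (k : ℕ) (hk : 1 ≤ k) : PropertyS k ↔ k ≤ 4 := by
  constructor
  · intro h
    by_contra hlt
    exact not_propertyS_of_five_le (by omega) h
  · intro h
    obtain ⟨m, rfl⟩ : ∃ m, k = m + 1 := ⟨k - 1, by omega⟩
    exact propertyS_succ (by omega)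

end Pool.Agent.Results.MP_c7ba3e_co.Classification
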